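import Pool.Agent.Lib.SX.MDefs
import Pool.Agent.Lib.BVM.Pairs

/-!
# Ord: Boolean values of the order on the reals
-/

set_option autoImplicit false
universe u

namespace Pool.Agent.SX

open Pool.Agent.Lib.BVM
open scoped symmDiff

variable {B : Type u} [CompleteBooleanAlgebra B]

theorem bih_iff (U : Ult B) {a b : B} : U.S (a ⇔ b) ↔ (U.S a ↔ U.S b) := by
  unfold bihimp
  rw [U.inf_iff, U.himp_iff, U.himp_iff]
  tauto

theorem eqv_le (u v : ℕ → B) (k : ℕ) : eqv u v ≤ (u k ⇔ v k) := iInf_le _ k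

theorem eqv_S (U : Ult B) {u v : ℕ → B} (h : U.S (eqv u v)) (k : ℕ) : U.S (u k) ↔ U.S (v k) :=
  (bih_iff U).1 (U.mono' (eqv_le u v k) h)

theorem eqv_refl (u : ℕ → B) : eqv u u = ⊤ := by simp [eqv]

theorem eqv_symm (u v : ℕ → B) : eqv u v = eqv v u := by
  unfold eqv
  exact iInf_congr fun k => bihimp_comm _ _

theorem le_eqv {c : B} {u v : ℕ → B} (h : ∀ U : Ult B, U.S c → ∀ k, (U.S (u k) ↔ U.S (v k))) :
    c ≤ eqv u v :=
  le_iInf fun k => le_of_forall_ult fun U hU => (bih_iff U).2 (h U hU k)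

theorem eqv_trans (u v w : ℕ → B) : eqv u v ⊓ eqv v w ≤ eqv u w :=
  le_eqv fun U hU k => by
    rw [U.inf_iff] at hU
    exact (eqv_S U hU.1 k).trans (eqv_S U hU.2 k)

/-- the kinds of predecessors -/
inductive Kd : Type
  | s : Kd
  | a (n : ℕ) : Kd
  | b (n : ℕ) : Kd
  | c (n m : ℕ) : Kd

deriving instance Countable for Kd

instance : Nonempty Kd := ⟨Kd.s⟩

def lk (v : ℕ → B) : Kd → B
  | .s => ⊤
  | .a _ => v 0 ⊓ (v 1)ᶜ
  | .b _ => v 0 ⊓ v 1
  | .c _ _ => v 0 ⊓ v 1

def rdk (v : ℕ → B) : Kd → ℕ → B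
  | .s => v
  | .a n => rd0 v n
  | .b n => rd1 v n
  | .c n m => rd2 v n m

theorem leB_eq (u v : ℕ → B) : leB u v = ⨆ k : Kd, lk v k ⊓ eqv u (rdk v k) := by
  apply le_antisymm
  · unfold leB
    refine sup_le (sup_le ?_ ?_) ?_
    · refine le_trans ?_ (le_iSup _ Kd.s)
      simp [lk, rdk]
    · rw [inf_iSup_eq]
      exact iSup_le fun n => le_iSup (fun k : Kd => lk v k ⊓ eqv u (rdk v k)) (Kd.a n)
    · rw [inf_sup_left, inf_iSup_eq, inf_iSup_eq]
      refine sup_le ?_ ?_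
      · exact iSup_le fun n => le_iSup (fun k : Kd => lk v k ⊓ eqv u (rdk v k)) (Kd.b n)
      · refine iSup_le fun n => ?_
        rw [inf_iSup_eq]
        exact iSup_le fun m => le_iSup (fun k : Kd => lk v k ⊓ eqv u (rdk v k)) (Kd.c n m)
  · refine iSup_le fun k => ?_
    unfold leB
    cases k with
    | s =>
      refine le_trans ?_ (le_sup_of_le_left le_sup_left)
      simp [lk, rdk]
    | a n =>
      refine le_trans ?_ (le_sup_of_le_left le_sup_right)
      exact inf_le_inf_left _ (le_iSup (fun n => eqv u (rd0 v n)) n)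
    | b n =>
      refine le_trans ?_ le_sup_right
      exact inf_le_inf_left _ (le_sup_of_le_left (le_iSup (fun n => eqv u (rd1 v n)) n))
    | c n m =>
      refine le_trans ?_ le_sup_right
      exact inf_le_inf_left _ (le_sup_of_le_right ((le_iSup (fun m => eqv u (rd2 v n m)) m).trans
        (le_iSup (fun n => ⨆ m, eqv u (rd2 v n m)) n)))

theorem rd0_congr (v v' : ℕ → B) (n : ℕ) : eqv v v' ≤ eqv (rd0 v n) (rd0 v' n) :=
  le_eqv fun U hU k => by
    cases k with
    | zero => exact Iff.rfl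
    | succ k => exact eqv_S U hU _

theorem rd1_congr (v v' : ℕ → B) (n : ℕ) : eqv v v' ≤ eqv (rd1 v n) (rd1 v' n) :=
  le_eqv fun U hU k => by
    match k with
    | 0 => exact Iff.rfl
    | 1 => exact Iff.rfl
    | k + 2 => exact eqv_S U hU _

theorem rd2_congr (v v' : ℕ → B) (n m : ℕ) : eqv v v' ≤ eqv (rd2 v n m) (rd2 v' n m) :=
  le_eqv fun U hU k => by
    cases k with
    | zero => exact Iff.rfl
    | succ k => exact eqv_S U hU _

theorem rdk_congr (v v' : ℕ → B) (k : Kd) : eqv v v' ≤ eqv (rdk v k) (rdk v' k) := by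
  cases k with
  | s => exact le_rfl
  | a n => exact rd0_congr v v' n
  | b n => exact rd1_congr v v' n
  | c n m => exact rd2_congr v v' n m

theorem lk_congr (v v' : ℕ → B) (k : Kd) : eqv v v' ⊓ lk v k ≤ lk v' k := by
  refine le_of_forall_ult fun U hU => ?_
  rw [U.inf_iff] at hU
  have h0 := eqv_S U hU.1 0
  have h1 := eqv_S U hU.1 1
  have h2 := hU.2
  cases k with
  | s => exact h2
  | a n =>
    simp only [lk, U.inf_iff, U.compl'] at h2 ⊢
    rwa [← h0, ← h1]
  | b n =>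
    simp only [lk, U.inf_iff] at h2 ⊢
    rwa [← h0, ← h1]
  | c n m =>
    simp only [lk, U.inf_iff] at h2 ⊢
    rwa [← h0, ← h1]

theorem leB_congr (u u' v v' : ℕ → B) : eqv u u' ⊓ eqv v v' ⊓ leB u v ≤ leB u' v' := by
  rw [leB_eq, leB_eq, inf_iSup_eq]
  refine iSup_mono fun k => ?_
  refine le_of_forall_ult fun U hU => ?_
  simp only [U.inf_iff] at hU ⊢
  obtain ⟨⟨h1, h2⟩, h3, h4⟩ := hU
  refine ⟨U.mono' (lk_congr v v' k) (U.inf' h2 h3), ?_⟩
  have h5 := U.mono' (rdk_congr v v' k) h2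
  rw [eqv_symm] at h1
  exact U.mono' (eqv_trans _ _ _) (U.inf' (U.mono' (eqv_trans _ _ _) (U.inf' h1 h4)) h5)

theorem leB_refl (u : ℕ → B) : leB u u = ⊤ := by
  rw [leB_eq, eq_top_iff]
  refine le_trans ?_ (le_iSup _ Kd.s)
  simp [lk, rdk, eqv_refl]

/-- the composition of two kinds -/
theorem rdk_rdk (w : ℕ → B) (k k' : Kd) : lk (rdk w k') k = ⊥ ∨
    ∃ k'', lk w k' ⊓ lk (rdk w k') k ≤ lk w k'' ∧ rdk (rdk w k') k = rdk w k'' := by
  cases k' with
  | s => exact Or.inr ⟨k, inf_le_right, rfl⟩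
  | a n =>
    cases k with
    | s => exact Or.inr ⟨.a n, inf_le_left, rfl⟩
    | a m => left; simp [lk, rdk, rd0]
    | b m => left; simp [lk, rdk, rd0]
    | c m l => left; simp [lk, rdk, rd0]
  | b n =>
    cases k with
    | s => exact Or.inr ⟨.b n, inf_le_left, rfl⟩
    | a m =>
      refine Or.inr ⟨.c n m, inf_le_left, ?_⟩
      funext k
      cases k with
      | zero => rfl
      | succ k =>
        show w (Nat.pair (Nat.pair n (Nat.pair m k).unpair.1) (Nat.pair m k).unpair.2 + 2) =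
          w (Nat.pair (Nat.pair n m) k + 2)
        rw [Nat.unpair_pair]
    | b m => left; simp [lk, rdk, rd1]
    | c m l => left; simp [lk, rdk, rd1]
  | c n m =>
    cases k with
    | s => exact Or.inr ⟨.c n m, inf_le_left, rfl⟩
    | a l => left; simp [lk, rdk, rd2]
    | b l => left; simp [lk, rdk, rd2]
    | c l l' => left; simp [lk, rdk, rd2]

theorem leB_trans (u v w : ℕ → B) : leB u v ⊓ leB v w ≤ leB u w := by
  rw [leB_eq v w, inf_iSup_eq]
  refine iSup_le fun k' => ?_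
  rw [leB_eq u v, iSup_inf_eq]
  refine iSup_le fun k => ?_
  rw [leB_eq]
  rcases rdk_rdk w k k' with h | ⟨k'', h1, h2⟩
  · refine le_of_forall_ult fun U hU => ?_
    exfalso
    simp only [U.inf_iff] at hU
    obtain ⟨⟨h3, h4⟩, h5, h6⟩ := hU
    have h7 := U.mono' (lk_congr v (rdk w k') k) (U.inf' h6 h3)
    rw [h] at h7
    exact U.bot' h7
  · refine le_trans ?_ (le_iSup _ k'')
    refine le_of_forall_ult fun U hU => ?_
    simp only [U.inf_iff] at hU ⊢
    obtain ⟨⟨h3, h4⟩, h5, h6⟩ := hU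
    have h7 := U.mono' (lk_congr v (rdk w k') k) (U.inf' h6 h3)
    refine ⟨U.mono' h1 (U.inf' h5 h7), ?_⟩
    have h8 := U.mono' (rdk_congr v (rdk w k') k) h6
    rw [h2] at h8
    exact U.mono' (eqv_trans _ _ _) (U.inf' h4 h8)

theorem leB_antisymm (u v : ℕ → B) : leB u v ⊓ leB v u ≤ eqv u v := by
  rw [leB_eq v u, inf_iSup_eq]
  refine iSup_le fun k' => ?_
  rw [leB_eq u v, iSup_inf_eq]
  refine iSup_le fun k => ?_
  refine le_of_forall_ult fun U hU => ?_
  simp only [U.inf_iff] at hU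
  obtain ⟨⟨h3, h4⟩, h5, h6⟩ := hU
  have a0 := eqv_S U h4 0
  have a1 := eqv_S U h4 1
  have b0 := eqv_S U h6 0
  have b1 := eqv_S U h6 1
  have hbot := U.bot'
  have htop := U.top'
  cases k with
  | s => exact h4
  | a n =>
    cases k' with
    | s => rw [eqv_symm]; exact h6
    | a m => exfalso; simp only [lk, rdk, rd0, U.inf_iff, U.compl'] at *; tauto
    | b m => exfalso; simp only [lk, rdk, rd0, rd1, U.inf_iff, U.compl'] at *; tauto
    | c m l => exfalso; simp only [lk, rdk, rd0, rd2, U.inf_iff, U.compl'] at *; tauto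
  | b n =>
    cases k' with
    | s => rw [eqv_symm]; exact h6
    | a m => exfalso; simp only [lk, rdk, rd0, rd1, U.inf_iff, U.compl'] at *; tauto
    | b m => exfalso; simp only [lk, rdk, rd1, U.inf_iff, U.compl'] at *; tauto
    | c m l => exfalso; simp only [lk, rdk, rd1, rd2, U.inf_iff, U.compl'] at *; tauto
  | c n m =>
    cases k' with
    | s => rw [eqv_symm]; exact h6
    | a l => exfalso; simp only [lk, rdk, rd0, rd2, U.inf_iff, U.compl'] at *; tauto
    | b l => exfalso; simp only [lk, rdk, rd1, rd2, U.inf_iff, U.compl'] at *; tauto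
    | c l l' => exfalso; simp only [lk, rdk, rd2, U.inf_iff, U.compl'] at *; tauto

theorem leB_le_iSup (u v : ℕ → B) : leB u v ≤ ⨆ k : Kd, eqv u (rdk v k) := by
  rw [leB_eq]
  exact iSup_mono fun k => inf_le_right

theorem leB_lev (u v : ℕ → B) : leB u v ≤ eqv u v ⊔ (v 0 ⊓ (v 1)ᶜ ⊓ (u 0)ᶜ) ⊔
    (v 0 ⊓ v 1 ⊓ u 0 ⊓ (u 1)ᶜ) ⊔ (v 0 ⊓ v 1 ⊓ (u 0)ᶜ) := by
  rw [leB_eq]
  refine iSup_le fun k => le_of_forall_ult fun U hU => ?_
  rw [U.inf_iff] at hU
  obtain ⟨h1, h2⟩ := hU
  have a0 := eqv_S U h2 0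
  have a1 := eqv_S U h2 1
  have hbot := U.bot'
  have htop := U.top'
  simp only [U.sup_iff, U.inf_iff, U.compl']
  cases k with
  | s => exact Or.inl (Or.inl (Or.inl h2))
  | a n => simp only [lk, rdk, rd0, U.inf_iff, U.compl'] at *; tauto
  | b n => simp only [lk, rdk, rd1, U.inf_iff, U.compl'] at *; tauto
  | c n m => simp only [lk, rdk, rd2, U.inf_iff, U.compl'] at *; tauto

/-- no chain of four elements: the order has height three -/
theorem leB_h3 (x y z t : ℕ → B) : leB x y ⊓ leB y z ⊓ leB z t ≤ eqv x y ⊔ (eqv y z ⊔ eqv z t) := by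
  refine le_of_forall_ult fun U hU => ?_
  simp only [U.inf_iff] at hU
  have h1 := U.mono' (leB_lev x y) hU.1.1
  have h2 := U.mono' (leB_lev y z) hU.1.2
  have h3 := U.mono' (leB_lev z t) hU.2
  simp only [U.sup_iff, U.inf_iff, U.compl'] at h1 h2 h3 ⊢
  tauto

end Pool.Agent.SX
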