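import Pool.Agent.Lib.BVM.ZFCDef

/-!
# Elm: elementary substructures of models of ZFC
-/

set_option autoImplicit false
universe u

namespace Pool.Agent.SX

open Pool.Agent.Lib.BVM

/-- renaming of the variables -/
def upf (f : ℕ → ℕ) : ℕ → ℕ
  | 0 => 0
  | n + 1 => f n + 1

def ren : Fm → (ℕ → ℕ) → Fm
  | .mem i j, f => .mem (f i) (f j)
  | .eq i j, f => .eq (f i) (f j)
  | .neg φ, f => .neg (ren φ f)
  | .and φ ψ, f => .and (ren φ f) (ren ψ f)
  | .or φ ψ, f => .or (ren φ f) (ren ψ f)
  | .imp φ ψ, f => .imp (ren φ f) (ren ψ f)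
  | .iff φ ψ, f => .iff (ren φ f) (ren ψ f)
  | .all φ, f => .all (ren φ (upf f))
  | .ex φ, f => .ex (ren φ (upf f))

theorem sat_ren {M : Type u} (E : M → M → Prop) (φ : Fm) :
    ∀ (f : ℕ → ℕ) (v : ℕ → M), sat E (ren φ f) v ↔ sat E φ (fun i => v (f i)) := by
  have h : ∀ (f : ℕ → ℕ) (x : M) (v : ℕ → M),
      (fun i => scons x v (upf f i)) = scons x (fun i => v (f i)) := by
    intro f x v
    funext i
    cases i <;> rfl
  induction φ with
  | mem i j => intro f v; exact Iff.rfl
  | eq i j => intro f v; exact Iff.rfl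
  | neg φ ih => intro f v; simp only [ren, sat, ih]
  | and φ ψ ih1 ih2 => intro f v; simp only [ren, sat, ih1, ih2]
  | or φ ψ ih1 ih2 => intro f v; simp only [ren, sat, ih1, ih2]
  | imp φ ψ ih1 ih2 => intro f v; simp only [ren, sat, ih1, ih2]
  | iff φ ψ ih1 ih2 => intro f v; simp only [ren, sat, ih1, ih2]
  | all φ ih => intro f v; simp only [ren, sat, ih, h]
  | ex φ ih => intro f v; simp only [ren, sat, ih, h]

section
variable {M : Type u} {E : M → M → Prop} {S : Set M}

/-- Tarski, Vaught -/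
def TV (E : M → M → Prop) (S : Set M) : Prop :=
  ∀ (φ : Fm) (v : ℕ → M), (∀ i, v i ∈ S) → (∃ x, sat E φ (scons x v)) → ∃ x ∈ S, sat E φ (scons x v)

theorem sat_sub (tv : TV E S) (φ : Fm) :
    ∀ v : ℕ → S, sat (fun x y : S => E x.1 y.1) φ v ↔ sat E φ (fun i => (v i).1) := by
  have h : ∀ (x : S) (v : ℕ → S), (fun i => (scons x v i).1) = scons x.1 (fun i => (v i).1) := by
    intro x v
    funext i
    cases i <;> rfl
  induction φ with
  | mem i j => intro v; exact Iff.rfl
  | eq i j => intro v; exact Subtype.ext_iff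
  | neg φ ih => intro v; simp only [sat, ih]
  | and φ ψ ih1 ih2 => intro v; simp only [sat, ih1, ih2]
  | or φ ψ ih1 ih2 => intro v; simp only [sat, ih1, ih2]
  | imp φ ψ ih1 ih2 => intro v; simp only [sat, ih1, ih2]
  | iff φ ψ ih1 ih2 => intro v; simp only [sat, ih1, ih2]
  | all φ ih =>
    intro v
    simp only [sat, ih, h]
    constructor
    · intro h1 x
      by_contra hx
      obtain ⟨y, hy, hy2⟩ := tv (.neg φ) (fun i => (v i).1) (fun i => (v i).2) ⟨x, hx⟩
      exact hy2 (h1 ⟨y, hy⟩)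
    · intro h1 x
      exact h1 x.1
  | ex φ ih =>
    intro v
    simp only [sat, ih, h]
    constructor
    · rintro ⟨x, hx⟩
      exact ⟨x.1, hx⟩
    · intro h1
      obtain ⟨y, hy, hy2⟩ := tv φ (fun i => (v i).1) (fun i => (v i).2) h1
      exact ⟨⟨y, hy⟩, hy2⟩

private def r3 : ℕ → ℕ
  | 0 => 0
  | n + 1 => n + 3

private theorem r3_eq {M : Type u} (z y x : M) (v : ℕ → M) :
    (fun i => scons z (scons y (scons x v)) (r3 i)) = scons z v := by
  funext i
  cases i <;> rfl

/-- `a b v` from `b a x v` -/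
private def q3 : ℕ → ℕ
  | 0 => 1
  | 1 => 0
  | n + 2 => n + 3

private theorem q3_eq {M : Type u} (a b x : M) (v : ℕ → M) :
    (fun i => scons b (scons a (scons x v)) (q3 i)) = scons a (scons b v) := by
  funext i
  match i with
  | 0 => rfl
  | 1 => rfl
  | n + 2 => rfl

/-- `a b' v` from `b' b a x v` -/
private def q4 : ℕ → ℕ
  | 0 => 2
  | 1 => 0
  | n + 2 => n + 4

private theorem q4_eq {M : Type u} (a b c x : M) (v : ℕ → M) :
    (fun i => scons c (scons b (scons a (scons x v))) (q4 i)) = scons a (scons c v) := by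
  funext i
  match i with
  | 0 => rfl
  | 1 => rfl
  | n + 2 => rfl

/-- `a b v` from `a b y x v` -/
private def q5 : ℕ → ℕ
  | 0 => 0
  | 1 => 1
  | n + 2 => n + 4

private theorem q5_eq {M : Type u} (a b y x : M) (v : ℕ → M) :
    (fun i => scons a (scons b (scons y (scons x v))) (q5 i)) = scons a (scons b v) := by
  funext i
  match i with
  | 0 => rfl
  | 1 => rfl
  | n + 2 => rfl

private theorem sc_val (x : S) (v : ℕ → S) :
    (fun i => (scons x v i).1) = scons x.1 (fun i => (v i).1) := by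
  funext i
  cases i <;> rfl

theorem isZFC_sub (tv : TV E S) (hS : S.Nonempty) (hE : IsZFC E) : IsZFC (fun x y : S => E x.1 y.1) where
  extensionality x y h := by
    have h1 : sat (fun x y : S => E x.1 y.1) (.all (.iff (.mem 0 1) (.mem 0 2)))
      (scons x (scons y fun _ => x)) := h
    rw [sat_sub tv] at h1
    exact Subtype.ext (hE.extensionality x.1 y.1 h1)
  foundation x := by
    show sat (fun x y : S => E x.1 y.1) (.imp (.ex (.mem 0 1)) (.ex (.and (.mem 0 1)
      (.all (.imp (.mem 0 2) (.neg (.mem 0 1))))))) (scons x fun _ => x)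
    rw [sat_sub tv]
    exact hE.foundation x.1
  pairing x y := by
    show sat (fun x y : S => E x.1 y.1) (.ex (.all (.iff (.mem 0 1) (.or (.eq 0 2) (.eq 0 3)))))
      (scons x (scons y fun _ => x))
    rw [sat_sub tv]
    exact hE.pairing x.1 y.1
  union x := by
    show sat (fun x y : S => E x.1 y.1) (.ex (.all (.iff (.mem 0 1) (.ex (.and (.mem 0 3)
      (.mem 1 0)))))) (scons x fun _ => x)
    rw [sat_sub tv]
    exact hE.union x.1
  power x := by
    show sat (fun x y : S => E x.1 y.1) (.ex (.all (.iff (.mem 0 1) (.all (.imp (.mem 0 1)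
      (.mem 0 3)))))) (scons x fun _ => x)
    rw [sat_sub tv]
    exact hE.power x.1
  infinity := by
    obtain ⟨x0, hx0⟩ := hS
    show sat (fun x y : S => E x.1 y.1) (.ex (.and (.ex (.and (.mem 0 1) (.all (.neg (.mem 0 1)))))
      (.all (.imp (.mem 0 1) (.ex (.and (.mem 0 2) (.all (.iff (.mem 0 1) (.or (.mem 0 2)
      (.eq 0 2)))))))))) (fun _ => ⟨x0, hx0⟩)
    rw [sat_sub tv]
    exact hE.infinity
  separation φ v x := by
    have h1 : sat (fun x y : S => E x.1 y.1) (.ex (.all (.iff (.mem 0 1) (.and (.mem 0 2)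
        (ren φ r3))))) (scons x v) := by
      rw [sat_sub tv, sc_val]
      have h2 := hE.separation φ (fun i => (v i).1) x.1
      obtain ⟨y, hy⟩ := h2
      refine ⟨y, fun z => ?_⟩
      have h3 := hy z
      simp only [sat, sat_ren, r3_eq]
      exact h3
    obtain ⟨y, hy⟩ := h1
    refine ⟨y, fun z => ?_⟩
    have h3 := hy z
    simp only [sat, sat_ren, r3_eq] at h3
    exact h3
  replacement φ v x := by
    have h1 : sat (fun x y : S => E x.1 y.1) (.imp (.all (.imp (.mem 0 1) (.ex (.and (ren φ q3)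
        (.all (.imp (ren φ q4) (.eq 0 1))))))) (.ex (.all (.iff (.mem 0 1) (.ex (.and (.mem 0 3)
        (ren φ q5))))))) (scons x v) := by
      rw [sat_sub tv, sc_val]
      have h2 := hE.replacement φ (fun i => (v i).1) x.1
      simp only [sat, sat_ren, q3_eq, q4_eq, q5_eq]
      exact h2
    simp only [sat, sat_ren, q3_eq, q4_eq, q5_eq] at h1
    exact h1
  choice x := by
    show sat (fun x y : S => E x.1 y.1) (.imp (.all (.imp (.mem 0 1) (.ex (.mem 0 1))))
      (.imp (.all (.all (.imp (.mem 1 2) (.imp (.mem 0 2) (.imp (.ex (.and (.mem 0 2) (.mem 0 1)))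
      (.eq 1 0)))))) (.ex (.all (.imp (.mem 0 2) (.ex (.and (.and (.mem 0 1) (.mem 0 2))
      (.all (.imp (.and (.mem 0 2) (.mem 0 3)) (.eq 0 1)))))))))) (scons x fun _ => x)
    rw [sat_sub tv]
    exact hE.choice x.1

end

end Pool.Agent.SX
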