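import Pool.Agent.Lib.SX.M.Nic
import Pool.Agent.Lib.SX.M.Elm
import Pool.Agent.Lib.PolB.Fml

/-!
# Asm: the model, assembly
-/

set_option autoImplicit false

namespace Pool.Agent.SX

open Pool.Agent.Lib.BVM Pool.Agent.Lib.BVM.BSet Pool.Agent.PolB
open scoped symmDiff

variable {B : Type} [CompleteBooleanAlgebra B]

section
variable {W : Ult B} {N : Set (BSet B)} (h : Nice W N)
include h

theorem Nice.tv : TV W.E (W.cls '' N) := by
  intro φ v hv hx
  choose w hw hw2 using hv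
  have hv2 : v = fun i => W.cls (w i) := funext fun i => (hw2 i).symm
  obtain ⟨x, hx⟩ := hx
  obtain ⟨y, rfl⟩ := W.exists_cls x
  have e : ∀ y : BSet B, scons (W.cls y) v = fun i => W.cls (scons y w i) := by
    intro y
    funext i
    cases i with
    | zero => rfl
    | succ i => exact (hw2 i).symm
  rw [e, W.los] at hx
  obtain ⟨x0, hx0, hx1⟩ := h.wit φ w hw
  refine ⟨W.cls x0, ⟨x0, hx0, rfl⟩, ?_⟩
  rw [e, W.los, hx1]
  exact W.mono' (le_iSup (fun y => bval φ (scons y w)) y) hx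

end

/-- the model -/
abbrev Md (W : Ult B) (N : Set (BSet B)) : Type 1 := {m : W.Mod // m ∈ W.cls '' N}

/-- membership of the model -/
abbrev Me (W : Ult B) (N : Set (BSet B)) : Md W N → Md W N → Prop := fun x y => W.E x.1 y.1

/-- the element of a name -/
def el {W : Ult B} {N : Set (BSet B)} (x : BSet B) (hx : x ∈ N) : Md W N := ⟨W.cls x, x, hx, rfl⟩

section
variable {W : Ult B} {N : Set (BSet B)}

theorem ex_el (m : Md W N) : ∃ (x : BSet B) (hx : x ∈ N), m = el x hx := by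
  obtain ⟨m, x, hx, rfl⟩ := m
  exact ⟨x, hx, rfl⟩

theorem el_eq {x y : BSet B} (hx : x ∈ N) (hy : y ∈ N) :
    (el x hx : Md W N) = el y hy ↔ W.S (bEq x y) := by
  rw [← W.cls_eq_iff]
  exact Subtype.ext_iff

theorem el_mem {x y : BSet B} (hx : x ∈ N) (hy : y ∈ N) :
    Me W N (el x hx) (el y hy) ↔ W.S (bMem x y) := Iff.rfl

variable (h : Nice W N)
include h

theorem Nice.zfc : IsZFC (Me W N) :=
  isZFC_sub h.tv ⟨W.cls (Pn B), Pn B, h.pn, rfl⟩ W.isZFC

theorem Nice.pair_iff {f a b : BSet B} (hf : f ∈ N) (ha : a ∈ N) (hb : b ∈ N) :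
    PairIn (Me W N) (el f hf) (el a ha) (el b hb) ↔ W.S (bMem (pr a b) f) := by
  let v : ℕ → Md W N := scons (el f hf) (scons (el a ha) fun _ => el b hb)
  let w : ℕ → BSet B := scons f (scons a fun _ => b)
  have h1 : PairIn (Me W N) (el f hf) (el a ha) (el b hb) ↔ sat (Me W N) (fPin 0 1 2) v :=
    Iff.rfl
  have h2 : (fun i => (v i).1) = fun i => W.cls (w i) := by
    funext i
    match i with
    | 0 => rfl
    | 1 => rfl
    | _ + 2 => rfl
  rw [h1, sat_sub h.tv, h2, W.los, bval_fPin]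
  exact Iff.rfl

theorem Nice.isNum (n : ℕ) (m : Md W N) : IsNum (Me W N) n m ↔ m = el (chk B n) (h.nat n) := by
  induction n generalizing m with
  | zero =>
    have h0 : ∀ z, ¬ Me W N z (el (chk B (0 : ℕ)) (h.nat 0)) := by
      intro z hz
      obtain ⟨x, hx, rfl⟩ := ex_el z
      rw [el_mem, bMem_chk_zero] at hz
      exact W.bot' hz
    constructor
    · intro h1
      exact h.zfc.extensionality _ _ fun z => ⟨fun hz => absurd hz (h1 z), fun hz => absurd hz (h0 z)⟩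
    · rintro rfl
      exact h0
  | succ n ih =>
    have h0 : ∀ z, Me W N z (el (chk B (n + 1)) (h.nat (n + 1))) ↔
        Me W N z (el (chk B n) (h.nat n)) ∨ z = el (chk B n) (h.nat n) := by
      intro z
      obtain ⟨x, hx, rfl⟩ := ex_el z
      rw [el_mem, el_mem, el_eq, bMem_chk_succ, W.sup_iff]
    constructor
    · rintro ⟨y, hy, hz⟩
      rw [ih] at hy
      subst hy
      exact h.zfc.extensionality _ _ fun z => (hz z).trans (h0 z).symm
    · rintro rfl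
      exact ⟨_, (ih _).2 rfl, h0⟩

/-- the set of natural numbers of the model -/
theorem Nice.mem_om {x : BSet B} (hx : x ∈ N) :
    Me W N (el x hx) (el (chkAll B ℕ) h.om) ↔ ∃ n : ℕ, W.S (bEq x (chk B n)) := by
  rw [el_mem, bMem_chkAll]
  constructor
  · exact h.sup1 x hx
  · rintro ⟨n, hn⟩
    exact W.mono' (le_iSup (fun n : ℕ => bEq x (chk B n)) n) hn

theorem Nice.mem_om' (m : Md W N) :
    Me W N m (el (chkAll B ℕ) h.om) ↔ ∃ n : ℕ, m = el (chk B n) (h.nat n) := by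
  obtain ⟨x, hx, rfl⟩ := ex_el m
  rw [h.mem_om hx]
  simp only [el_eq]

theorem Nice.std : IsStdOmega (Me W N) (el (chkAll B ℕ) h.om) := by
  intro x
  rw [h.mem_om']
  simp only [h.isNum]

omit h in
/-- membership of pairs, for names of reals -/
theorem pair_congr {a a' b b' f : BSet B} (ha : W.S (bEq a a')) (hb : W.S (bEq b b')) :
    W.S (bMem (pr a b) f) ↔ W.S (bMem (pr a' b') f) := by
  have h1 : W.S (bEq (pr a b) (pr a' b')) := by
    rw [bEq_pr]
    exact W.inf' ha hb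
  constructor
  · intro h2
    exact W.mono' (bMem_congr_left _ _ _) (W.inf' h1 h2)
  · intro h2
    rw [bEq_symm] at h1
    exact W.mono' (bMem_congr_left _ _ _) (W.inf' h1 h2)

omit h in
theorem mem_P {a : BSet B} (ha : W.S (bMem a (Pn B))) : W.S (bEq a (rn (rv a))) :=
  W.mono' (P_le a) ha

theorem Nice.rel_iff {a b : BSet B} (ha : a ∈ N) (hb : b ∈ N) (ha2 : W.S (bMem a (Pn B)))
    (hb2 : W.S (bMem b (Pn B))) :
    PairIn (Me W N) (el (Rn B) h.rl) (el a ha) (el b hb) ↔ W.S (leB (rv a) (rv b)) := by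
  rw [h.pair_iff, pair_congr (mem_P ha2) (mem_P hb2), Rn_val]

omit h in
theorem eq_iff_rv {a b : BSet B} (ha2 : W.S (bMem a (Pn B))) (hb2 : W.S (bMem b (Pn B))) :
    W.S (bEq a b) ↔ W.S (eqv (rv a) (rv b)) := by
  constructor
  · intro h1
    exact W.mono' (bEq_le_rv a b) h1
  · intro h1
    rw [← bEq_rn] at h1
    have h2 := mem_P ha2
    have h3 := mem_P hb2
    rw [bEq_symm] at h3
    exact W.mono' (bEq_trans _ _ _) (W.inf' (W.mono' (bEq_trans _ _ _) (W.inf' h2 h1)) h3)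

theorem Nice.po : IsPO (Me W N) (el (Pn B) h.pn) (el (Rn B) h.rl) := by
  refine ⟨?_, ?_, ?_⟩
  · intro x hx
    obtain ⟨a, ha, rfl⟩ := ex_el x
    rw [h.rel_iff ha ha hx hx, leB_refl]
    exact W.top'
  · intro x y hx hy hxy hyx
    obtain ⟨a, ha, rfl⟩ := ex_el x
    obtain ⟨b, hb, rfl⟩ := ex_el y
    rw [h.rel_iff ha hb hx hy] at hxy
    rw [h.rel_iff hb ha hy hx] at hyx
    rw [el_eq, eq_iff_rv hx hy]
    exact W.mono' (leB_antisymm _ _) (W.inf' hxy hyx)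
  · intro x y z hx hy hz hxy hyz
    obtain ⟨a, ha, rfl⟩ := ex_el x
    obtain ⟨b, hb, rfl⟩ := ex_el y
    obtain ⟨c, hc, rfl⟩ := ex_el z
    rw [h.rel_iff ha hb hx hy] at hxy
    rw [h.rel_iff hb hc hy hz] at hyz
    rw [h.rel_iff ha hc hx hz]
    exact W.mono' (leB_trans _ _ _) (W.inf' hxy hyz)

theorem Nice.h3 : IsH3 (Me W N) (el (Pn B) h.pn) (el (Rn B) h.rl) := by
  intro x y z t hx hy hz ht hxy hyz hzt
  obtain ⟨a, ha, rfl⟩ := ex_el x
  obtain ⟨b, hb, rfl⟩ := ex_el y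
  obtain ⟨c, hc, rfl⟩ := ex_el z
  obtain ⟨d, hd, rfl⟩ := ex_el t
  rw [h.rel_iff ha hb hx hy] at hxy
  rw [h.rel_iff hb hc hy hz] at hyz
  rw [h.rel_iff hc hd hz ht] at hzt
  rw [el_eq, el_eq, el_eq, eq_iff_rv hx hy, eq_iff_rv hy hz, eq_iff_rv hz ht, ← W.sup_iff, ← W.sup_iff]
  exact W.mono' (leB_h3 _ _ _ _) (W.inf' (W.inf' hxy hyz) hzt)

theorem Nice.lc : IsLocCtb (Me W N) (el (chkAll B ℕ) h.om) (el (Pn B) h.pn) (el (Rn B) h.rl) := by
  intro x hx
  obtain ⟨a, ha, rfl⟩ := ex_el x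
  refine ⟨el (Ln (rv a)) (h.ln a ha), ?_, ?_⟩
  · intro n hn y z hy hz h1 h2
    obtain ⟨k, rfl⟩ := (h.mem_om' n).1 hn
    obtain ⟨b, hb, rfl⟩ := ex_el y
    obtain ⟨c, hc, rfl⟩ := ex_el z
    rw [h.pair_iff, Ln_val] at h1 h2
    rw [el_eq]
    rw [bEq_symm] at h2
    exact W.mono' (bEq_trans _ _ _) (W.inf' h1 h2)
  · intro y hy h1
    obtain ⟨b, hb, rfl⟩ := ex_el y
    rw [h.rel_iff hb ha hy hx] at h1
    have h2 : W.S (⨆ n, eqv (rv b) (rdk (rv a) (kd n))) := by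
      refine W.mono' ?_ h1
      refine (leB_le_iSup _ _).trans (iSup_le fun k => ?_)
      obtain ⟨n, rfl⟩ := kd_surj k
      exact le_iSup (fun n => eqv (rv b) (rdk (rv a) (kd n))) n
    obtain ⟨n, hn⟩ := h.sup2 b hb a ha h2
    refine ⟨el (chk B n) (h.nat n), (h.mem_om' _).2 ⟨n, rfl⟩, ?_⟩
    rw [h.pair_iff, Ln_val]
    rw [← bEq_rn] at hn
    exact W.mono' (bEq_trans _ _ _) (W.inf' (mem_P hy) hn)

theorem Nice.lcont : LeCont (Me W N) (el (chkAll B ℕ) h.om) (el (Pn B) h.pn) := by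
  refine ⟨el (Cn B) h.cn, ?_⟩
  intro x y hx hy hxy
  obtain ⟨a, ha, rfl⟩ := ex_el x
  obtain ⟨b, hb, rfl⟩ := ex_el y
  rw [Ne, el_eq, eq_iff_rv hx hy] at hxy
  have h1 : W.S (⨆ n, (rv a n ⇔ rv b n)ᶜ) := by
    rw [← compl_iInf]
    exact W.compl'.2 hxy
  obtain ⟨n, hn⟩ := h.sup3 a ha b hb h1
  refine ⟨el (chk B n) (h.nat n), (h.mem_om' _).2 ⟨n, rfl⟩, ?_⟩
  have h2 : ∀ (c : BSet B) (hc : c ∈ N), W.S (bMem c (Pn B)) →
      (PairIn (Me W N) (el (Cn B) h.cn) (el c hc) (el (chk B n) (h.nat n)) ↔ W.S (rv c n)) := by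
    intro c hc hc2
    have h3 : W.S (bEq (chk B n) (chk B n)) := by
      rw [bEq_refl]
      exact W.top'
    rw [h.pair_iff, pair_congr (mem_P hc2) h3, Cn_val]
  rw [h2 a ha hx, h2 b hb hy]
  have h4 := W.compl'.1 hn
  rwa [bih_iff] at h4

theorem Nice.row {f : BSet B} (hf : f ∈ N) (u : ℕ → B) (hu : rn u ∈ N) :
    Row (Me W N) (el f hf) (el (rn u) hu) = {n | W.S (Fr f u n)} := by
  ext n
  show (∃ k, IsNum (Me W N) n k ∧ PairIn (Me W N) (el f hf) (el (rn u) hu) k) ↔ W.S (Fr f u n)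
  simp only [h.isNum, exists_eq_left, h.pair_iff]
  exact Iff.rfl

theorem Nice.noEmb (F : Md W N) : ¬ ∀ x y, Me W N x (el (Pn B) h.pn) → Me W N y (el (Pn B) h.pn) →
    (PairIn (Me W N) (el (Rn B) h.rl) x y ↔ SetTR (Row (Me W N) F x) (Row (Me W N) F y)) := by
  intro hF
  obtain ⟨f, hf, rfl⟩ := ex_el F
  obtain ⟨u, v, hu, hv, h1, h2⟩ := h.pair f hf
  have hP : ∀ w : ℕ → B, W.S (bMem (rn w) (Pn B)) := by
    intro w
    rw [rn_mem_P]
    exact W.top'
  have h3 := hF (el (rn u) hu) (el (rn v) hv) (hP u) (hP v)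
  rw [h.rel_iff hu hv (hP u) (hP v), rv_rn, rv_rn, h.row hf u hu, h.row hf v hv, setTR_iff h2,
    ← bih_iff] at h3
  unfold embV at h1
  rw [h1] at h3
  exact W.bot' h3

theorem Nice.fails : SacksFails :=
  ⟨Md W N, Me W N, h.zfc, el (chkAll B ℕ) h.om, el (Pn B) h.pn, el (Rn B) h.rl, h.std, h.po, h.lc,
    h.lcont, h.h3, h.noEmb⟩

end

theorem partM' {B : Type} [CompleteBooleanAlgebra B] [Nontrivial B]
    (hB : ∀ F : (ℕ → B) → ℕ → B, ExtF F → embB F = ⊥) : SacksFails := by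
  obtain ⟨W, N, h⟩ := exists_nice hB
  exact h.fails

end Pool.Agent.SX
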