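import Pool.Agent.Lib.BVM.Fm
import Pool.Agent.Lib.BVM.Mix
import Pool.Agent.Lib.BVM.ZFC1

/-!
# Cls: countable sets of names closed under witnesses
-/

set_option autoImplicit false
universe u

namespace Pool.Agent.SX

open Pool.Agent.Lib.BVM

deriving instance Countable for Fm

/-- bound of the variables -/
def bd : Fm → ℕ
  | .mem i j => max i j + 1
  | .eq i j => max i j + 1
  | .neg φ => bd φ
  | .and φ ψ => max (bd φ) (bd ψ)
  | .or φ ψ => max (bd φ) (bd ψ)
  | .imp φ ψ => max (bd φ) (bd ψ)
  | .iff φ ψ => max (bd φ) (bd ψ)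
  | .all φ => bd φ
  | .ex φ => bd φ

variable {B : Type u} [CompleteBooleanAlgebra B]

theorem bval_bd (φ : Fm) : ∀ v w : ℕ → BSet B, (∀ i < bd φ, v i = w i) → bval φ v = bval φ w := by
  have hs : ∀ (x : BSet B) (v w : ℕ → BSet B) (n : ℕ), (∀ i < n, v i = w i) →
      ∀ i < n, scons x v i = scons x w i := by
    intro x v w n h i hi
    cases i with
    | zero => rfl
    | succ i => exact h i (by omega)
  induction φ with
  | mem i j =>
    intro v w h
    simp only [bval, h i (by simp [bd]), h j (by simp [bd])]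
  | eq i j =>
    intro v w h
    simp only [bval, h i (by simp [bd]), h j (by simp [bd])]
  | neg φ ih => intro v w h; simp only [bval, ih v w h]
  | and φ ψ ih1 ih2 =>
    intro v w h
    simp only [bval, ih1 v w fun i hi => h i (lt_of_lt_of_le hi (le_max_left _ _)),
      ih2 v w fun i hi => h i (lt_of_lt_of_le hi (le_max_right _ _))]
  | or φ ψ ih1 ih2 =>
    intro v w h
    simp only [bval, ih1 v w fun i hi => h i (lt_of_lt_of_le hi (le_max_left _ _)),
      ih2 v w fun i hi => h i (lt_of_lt_of_le hi (le_max_right _ _))]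
  | imp φ ψ ih1 ih2 =>
    intro v w h
    simp only [bval, ih1 v w fun i hi => h i (lt_of_lt_of_le hi (le_max_left _ _)),
      ih2 v w fun i hi => h i (lt_of_lt_of_le hi (le_max_right _ _))]
  | iff φ ψ ih1 ih2 =>
    intro v w h
    simp only [bval, ih1 v w fun i hi => h i (lt_of_lt_of_le hi (le_max_left _ _)),
      ih2 v w fun i hi => h i (lt_of_lt_of_le hi (le_max_right _ _))]
  | all φ ih =>
    intro v w h
    simp only [bval, ih _ _ (hs _ v w (bd φ) h)]
  | ex φ ih =>
    intro v w h
    simp only [bval, ih _ _ (hs _ v w (bd φ) h)]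

/-- the assignment given by a list -/
noncomputable def lv (l : List (BSet B)) (i : ℕ) : BSet B := l.getD i bEmpty

noncomputable def wit (φ : Fm) (v : ℕ → BSet B) : BSet B := (exists_max (ext1_bval φ v)).choose

theorem wit_spec (φ : Fm) (v : ℕ → BSet B) : bval φ (scons (wit φ v) v) = ⨆ y, bval φ (scons y v) :=
  (exists_max (ext1_bval φ v)).choose_spec

def stepN (G : ℕ → BSet B → BSet B) (S : Set (BSet B)) : Set (BSet B) :=
  S ∪ (⋃ φ : Fm, (fun l => wit φ (lv l)) '' {l : List (BSet B) | ∀ x ∈ l, x ∈ S}) ∪ ⋃ i, G i '' S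

theorem countable_lists {α : Type*} {S : Set α} (h : S.Countable) :
    {l : List α | ∀ x ∈ l, x ∈ S}.Countable := by
  have := h.to_subtype
  refine (Set.countable_range (List.map (Subtype.val : S → α))).mono ?_
  intro l hl
  refine ⟨l.pmap (fun x hx => ⟨x, hx⟩) hl, ?_⟩
  rw [List.map_pmap, List.pmap_eq_map, List.map_id']

theorem countable_stepN (G : ℕ → BSet B → BSet B) {S : Set (BSet B)} (h : S.Countable) :
    (stepN G S).Countable := by
  refine (h.union ?_).union ?_
  · exact Set.countable_iUnion fun φ => (countable_lists h).image _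
  · exact Set.countable_iUnion fun i => h.image _

theorem exists_cls {S0 : Set (BSet B)} (h0 : S0.Countable) (G : ℕ → BSet B → BSet B) :
    ∃ N : Set (BSet B), N.Countable ∧ S0 ⊆ N ∧ (∀ i, ∀ x ∈ N, G i x ∈ N) ∧
      ∀ (φ : Fm) (v : ℕ → BSet B), (∀ i, v i ∈ N) →
        ∃ x ∈ N, bval φ (scons x v) = ⨆ y, bval φ (scons y v) := by
  have hc : ∀ n, ((stepN G)^[n] S0).Countable := by
    intro n
    induction n with
    | zero => exact h0
    | succ n ih =>
      rw [Function.iterate_succ_apply']
      exact countable_stepN G ih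
  have hm : Monotone fun n => (stepN G)^[n] S0 := monotone_nat_of_le_succ fun n => by
    show (stepN G)^[n] S0 ⊆ (stepN G)^[n + 1] S0
    rw [Function.iterate_succ_apply']
    exact fun x hx => Or.inl (Or.inl hx)
  refine ⟨⋃ n, (stepN G)^[n] S0, Set.countable_iUnion hc, fun x hx => Set.mem_iUnion.2 ⟨0, hx⟩, ?_, ?_⟩
  · intro i x hx
    obtain ⟨n, hn⟩ := Set.mem_iUnion.1 hx
    refine Set.mem_iUnion.2 ⟨n + 1, ?_⟩
    rw [Function.iterate_succ_apply']
    exact Or.inr (Set.mem_iUnion.2 ⟨i, x, hn, rfl⟩)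
  · intro φ v hv
    have h1 : ∀ i, ∃ n, v i ∈ (stepN G)^[n] S0 := fun i => Set.mem_iUnion.1 (hv i)
    choose n hn using h1
    let m := (Finset.range (bd φ)).sup n
    let l : List (BSet B) := (List.range (bd φ)).map v
    have hl : ∀ x ∈ l, x ∈ (stepN G)^[m] S0 := by
      intro x hx
      obtain ⟨i, hi, rfl⟩ := List.mem_map.1 hx
      exact hm (Finset.le_sup (Finset.mem_range.2 (List.mem_range.1 hi))) (hn i)
    have hlv : ∀ i < bd φ, lv l i = v i := by
      intro i hi
      simp [lv, l, List.getD, hi]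
    have hlv2 : ∀ y : BSet B, bval φ (scons y (lv l)) = bval φ (scons y v) := by
      intro y
      refine bval_bd φ _ _ fun i hi => ?_
      cases i with
      | zero => rfl
      | succ i => exact hlv i (by omega)
    refine ⟨wit φ (lv l), Set.mem_iUnion.2 ⟨m + 1, ?_⟩, ?_⟩
    · rw [Function.iterate_succ_apply']
      exact Or.inl (Or.inr (Set.mem_iUnion.2 ⟨φ, l, hl, rfl⟩))
    · have h2 := wit_spec φ (lv l)
      rw [hlv2] at h2
      rw [h2]
      exact iSup_congr hlv2

end Pool.Agent.SX
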