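import Pool.Agent.Lib.SX.M.Ord
import Pool.Agent.Lib.BVM.Mix

/-!
# Mixb: if the value of `F is an embedding` is `⊥`, then there is a pair which witnesses this with value `⊤`
-/

set_option autoImplicit false
universe u

namespace Pool.Agent.SX

open Pool.Agent.Mart Pool.Agent.Lib.BVM
open scoped symmDiff

variable {B : Type u} [CompleteBooleanAlgebra B]

theorem lit_congr {U : Ult B} {u v : ℕ → B} (h : U.S (eqv u v)) (k : ℕ) (i : Bool) :
    U.S (lit (u k) i) ↔ U.S (lit (v k) i) := by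
  cases i with
  | true => exact eqv_S U h k
  | false =>
    show U.S (u k)ᶜ ↔ U.S (v k)ᶜ
    rw [U.compl', U.compl', eqv_S U h k]

theorem trE_congr (e : ℕ) (a a' b b' : ℕ → B) :
    eqv a a' ⊓ eqv b b' ⊓ trE e a b ≤ trE e a' b' := by
  unfold trE
  refine le_iInf fun n => ?_
  refine le_trans (inf_le_inf_left _ (iInf_le _ n)) ?_
  rw [inf_iSup_eq]
  refine iSup_mono fun t => ?_
  rw [inf_iSup_eq]
  refine iSup_mono fun y => ?_
  refine le_inf ?_ ?_
  · refine le_iInf fun k => ?_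
    refine le_of_forall_ult fun U hU => ?_
    simp only [U.inf_iff] at hU
    exact (lit_congr hU.1.2 _ _).1 (U.mono' (iInf_le _ k) hU.2.1)
  · refine le_of_forall_ult fun U hU => ?_
    simp only [U.inf_iff] at hU
    exact (lit_congr hU.1.1 _ _).1 hU.2.2

theorem trB_congr (a a' b b' : ℕ → B) : eqv a a' ⊓ eqv b b' ⊓ trB a b ≤ trB a' b' := by
  unfold trB
  rw [inf_iSup_eq]
  exact iSup_mono fun e => trE_congr e a a' b b'

theorem ExtF.eqv_le {F : (ℕ → B) → ℕ → B} (hF : ExtF F) (u u' : ℕ → B) :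
    eqv u u' ≤ eqv (F u) (F u') := by
  refine le_eqv fun U hU k => ⟨fun h => ?_, fun h => ?_⟩
  · exact U.mono' (hF u u' k) (U.inf' hU h)
  · rw [eqv_symm] at hU
    exact U.mono' (hF u' u k) (U.inf' hU h)

/-- the value of the equivalence for one pair -/
def embV (F : (ℕ → B) → ℕ → B) (u v : ℕ → B) : B := leB u v ⇔ trB (F u) (F v)

theorem embV_congr {F : (ℕ → B) → ℕ → B} (hF : ExtF F) (u u' v v' : ℕ → B) :
    eqv u u' ⊓ eqv v v' ⊓ embV F u v ≤ embV F u' v' := by
  refine le_of_forall_ult fun U hU => ?_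
  unfold embV at hU ⊢
  simp only [U.inf_iff, bih_iff] at hU ⊢
  obtain ⟨⟨h1, h2⟩, h3⟩ := hU
  have h1' : U.S (eqv u' u) := by rwa [eqv_symm]
  have h2' : U.S (eqv v' v) := by rwa [eqv_symm]
  have a1 : U.S (leB u v) ↔ U.S (leB u' v') :=
    ⟨fun h => U.mono' (leB_congr u u' v v') (U.inf' (U.inf' h1 h2) h),
      fun h => U.mono' (leB_congr u' u v' v) (U.inf' (U.inf' h1' h2') h)⟩
  have a2 : U.S (trB (F u) (F v)) ↔ U.S (trB (F u') (F v')) :=
    ⟨fun h => U.mono' (trB_congr _ _ _ _) (U.inf' (U.inf' (U.mono' (hF.eqv_le _ _) h1)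
        (U.mono' (hF.eqv_le _ _) h2)) h),
      fun h => U.mono' (trB_congr _ _ _ _) (U.inf' (U.inf' (U.mono' (hF.eqv_le _ _) h1')
        (U.mono' (hF.eqv_le _ _) h2')) h)⟩
  rw [← a1, ← a2]
  exact h3

theorem exists_embV_bot {F : (ℕ → B) → ℕ → B} (hF : ExtF F) (h : embB F = ⊥) :
    ∃ u v, embV F u v = ⊥ := by
  obtain ⟨a, ha, hd, hs⟩ := exists_disjoint_refine
    (fun i : (ℕ → B) × (ℕ → B) => (embV F i.1 i.2)ᶜ)
  have hs2 : (⨆ i, a i) = ⊤ := by
    rw [hs, ← compl_iInf, eq_top_iff, ← compl_bot]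
    refine compl_le_compl ?_
    rw [← h]
    unfold embB
    exact le_iInf fun u => le_iInf fun v => iInf_le _ (u, v)
  have key : ∀ (g : (ℕ → B) × (ℕ → B) → ℕ → B) (i : (ℕ → B) × (ℕ → B)),
      a i ≤ eqv (fun n => ⨆ j, a j ⊓ g j n) (g i) := by
    intro g i
    refine le_iInf fun n => ?_
    unfold bihimp
    refine le_inf ?_ ?_
    · rw [le_himp_iff]
      exact le_iSup (fun j => a j ⊓ g j n) i
    · rw [le_himp_iff, inf_iSup_eq]
      refine iSup_le fun j => ?_
      by_cases hij : i = j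
      · subst hij
        exact inf_le_right.trans inf_le_right
      · have h1 := (hd hij).le_bot
        exact le_trans (le_inf inf_le_left (inf_le_right.trans inf_le_left)) (h1.trans bot_le)
  refine ⟨fun n => ⨆ j, a j ⊓ j.1 n, fun n => ⨆ j, a j ⊓ j.2 n, ?_⟩
  rw [eq_bot_iff]
  set u : ℕ → B := fun n => ⨆ j, a j ⊓ j.1 n with hu
  set v : ℕ → B := fun n => ⨆ j, a j ⊓ j.2 n with hv
  calc embV F u v = embV F u v ⊓ ⨆ i, a i := by rw [hs2, inf_top_eq]
    _ ≤ ⊥ := by
      rw [inf_iSup_eq]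
      refine iSup_le fun i => ?_
      refine le_of_forall_ult fun U hU => ?_
      exfalso
      rw [U.inf_iff] at hU
      have h1 := U.mono' (key (fun j => j.1) i) hU.2
      have h2 := U.mono' (key (fun j => j.2) i) hU.2
      have h3 := U.mono' (embV_congr hF u i.1 v i.2) (U.inf' (U.inf' h1 h2) hU.1)
      exact U.compl'.1 (U.mono' (ha i) hU.2) h3

end Pool.Agent.SX
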