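import Pool.Agent.Lib.SX.M.Ord
import Pool.Agent.Lib.PolB.Prs

/-!
# Nam: names for the reals, the set of all reals, the order
-/

set_option autoImplicit false

namespace Pool.Agent.SX

open Pool.Agent.Lib.BVM Pool.Agent.Lib.BVM.BSet
open scoped symmDiff

variable {B : Type} [CompleteBooleanAlgebra B]

/-- name of the ordered pair -/
abbrev pr (a b : BSet B) : BSet B := Pool.Agent.PolB.opair a b

theorem bEq_pr (a b c d : BSet B) : bEq (pr a b) (pr c d) = bEq a c ⊓ bEq b d :=
  Pool.Agent.PolB.bEq_opair a b c d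

/-- name of the real `u` -/
noncomputable def rn (u : ℕ → B) : BSet B := Pool.Agent.PolB.subN u

/-- the Boolean values of a name for a real -/
noncomputable def rv (x : BSet B) : ℕ → B := fun n => bMem (chk B n) x

theorem rv_rn (u : ℕ → B) : rv (rn u) = u := funext fun n => Pool.Agent.PolB.bMem_subN_ck u n

theorem bEq_rn (u v : ℕ → B) : bEq (rn u) (rn v) = eqv u v := by
  have h1 : ∀ n, bMem (chk B n) (rn v) = v n := fun n => congrFun (rv_rn v) n
  have h2 : ∀ n, bMem (chk B n) (rn u) = u n := fun n => congrFun (rv_rn u) n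
  rw [bEq_eq_mem]
  show (⨅ n : ℕ, (u n ⇨ bMem (chk B n) (rn v))) ⊓ (⨅ n : ℕ, (v n ⇨ bMem (chk B n) (rn u))) = eqv u v
  simp only [h1, h2]
  rw [← iInf_inf_eq]
  unfold eqv bihimp
  exact iInf_congr fun n => inf_comm _ _

theorem bEq_le_rv (x y : BSet B) : bEq x y ≤ eqv (rv x) (rv y) :=
  le_iInf fun n => by
    unfold bihimp
    refine le_inf ?_ ?_
    · rw [le_himp_iff, bEq_symm]
      exact bMem_congr_right _ _ _
    · rw [le_himp_iff]
      exact bMem_congr_right _ _ _

/-- name of the set of all reals -/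
noncomputable def Pn (B : Type) [CompleteBooleanAlgebra B] : BSet B := BSet.mk (ℕ → B) rn (fun _ => ⊤)

theorem rn_mem_P (u : ℕ → B) : bMem (rn u) (Pn B) = ⊤ := by
  rw [eq_top_iff, Pn, bMem_mk]
  refine le_trans ?_ (le_iSup _ u)
  rw [bEq_refl, inf_top_eq]

theorem P_le (x : BSet B) : bMem x (Pn B) ≤ bEq x (rn (rv x)) := by
  rw [Pn, bMem_mk]
  refine iSup_le fun u => ?_
  rw [top_inf_eq]
  have h1 : bEq x (rn u) ≤ eqv u (rv x) := by
    have h2 := bEq_le_rv x (rn u)
    rw [rv_rn, eqv_symm] at h2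
    exact h2
  rw [← bEq_rn] at h1
  exact le_trans (le_inf le_rfl h1) (bEq_trans _ _ _)

/-- name of the order -/
noncomputable def Rn (B : Type) [CompleteBooleanAlgebra B] : BSet B :=
  BSet.mk ((ℕ → B) × (ℕ → B)) (fun z => pr (rn z.1) (rn z.2)) (fun z => leB z.1 z.2)

theorem Rn_val (u v : ℕ → B) : bMem (pr (rn u) (rn v)) (Rn B) = leB u v := by
  rw [Rn, bMem_mk]
  apply le_antisymm
  · refine iSup_le fun z => ?_
    rw [bEq_pr, bEq_rn, bEq_rn, inf_comm, eqv_symm u, eqv_symm v]
    exact leB_congr _ _ _ _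
  · refine le_trans ?_ (le_iSup _ (u, v))
    rw [bEq_refl, inf_top_eq]

/-- name of the membership relation between reals and numbers -/
noncomputable def Cn (B : Type) [CompleteBooleanAlgebra B] : BSet B :=
  BSet.mk ((ℕ → B) × ℕ) (fun z => pr (rn z.1) (chk B z.2)) (fun z => z.1 z.2)

theorem Cn_val (u : ℕ → B) (n : ℕ) : bMem (pr (rn u) (chk B n)) (Cn B) = u n := by
  rw [Cn, bMem_mk]
  apply le_antisymm
  · refine iSup_le fun z => ?_
    rw [bEq_pr, bEq_rn, chk_eq]
    split_ifs with h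
    · refine le_of_forall_ult fun U hU => ?_
      simp only [U.inf_iff] at hU
      rw [h]
      exact (eqv_S U hU.2.1 _).2 hU.1
    · simp
  · refine le_trans ?_ (le_iSup _ (u, n))
    rw [bEq_refl, inf_top_eq]

/-- enumeration of the kinds -/
noncomputable def kd : ℕ → Kd := (exists_surjective_nat Kd).choose

theorem kd_surj : Function.Surjective kd := (exists_surjective_nat Kd).choose_spec

/-- name of an enumeration of the predecessors of `v` -/
noncomputable def Ln (v : ℕ → B) : BSet B :=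
  BSet.mk ℕ (fun n => pr (chk B n) (rn (rdk v (kd n)))) (fun _ => ⊤)

theorem Ln_val (v : ℕ → B) (n : ℕ) (y : BSet B) :
    bMem (pr (chk B n) y) (Ln v) = bEq y (rn (rdk v (kd n))) := by
  rw [Ln, bMem_mk]
  apply le_antisymm
  · refine iSup_le fun m => ?_
    rw [bEq_pr, chk_eq, top_inf_eq]
    split_ifs with h
    · rw [h]
      exact inf_le_right
    · simp
  · refine le_trans ?_ (le_iSup _ n)
    rw [bEq_pr, bEq_refl, top_inf_eq, top_inf_eq]

/-- the rows of a name, for names of reals -/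
noncomputable def Fr (f : BSet B) : (ℕ → B) → ℕ → B := fun u n => bMem (pr (rn u) (chk B n)) f

theorem Fr_ext (f : BSet B) : ExtF (Fr f) := by
  intro u u' n
  have h1 : eqv u u' ≤ bEq (pr (rn u) (chk B n)) (pr (rn u') (chk B n)) := by
    rw [bEq_pr, bEq_rn, bEq_refl, inf_top_eq]
  exact le_trans (inf_le_inf_right _ h1) (bMem_congr_left _ _ _)

end Pool.Agent.SX
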