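import Pool.Agent.Lib.SX.MDefs
import Pool.Agent.Lib.BVM.Model

/-!
# Tur: the Boolean value of Turing reducibility, for ultrafilters which meet enough suprema
-/

set_option autoImplicit false
universe u

namespace Pool.Agent.SX

open Pool.Agent.Mart Pool.Agent.GammaZero Pool.Agent.Lib.BVM
open scoped symmDiff

variable {B : Type u} [CompleteBooleanAlgebra B]

open Classical in
/-- the real given by `a` in the ultrafilter `W` -/
noncomputable def rea (W : Ult B) (a : ℕ → B) : Cs := fun n => decide (W.S (a n))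

theorem rea_iff (W : Ult B) (a : ℕ → B) (n : ℕ) : rea W a n = true ↔ W.S (a n) := by
  classical
  unfold rea
  exact decide_eq_true_iff

theorem lit_iff (W : Ult B) (a : ℕ → B) (n : ℕ) (i : Bool) : W.S (lit (a n) i) ↔ rea W a n = i := by
  cases i with
  | true =>
    rw [rea_iff]
    rfl
  | false =>
    have h := rea_iff W a n
    have h2 : W.S (lit (a n) false) ↔ ¬ W.S (a n) := W.compl'
    rw [h2, ← h]
    simp

theorem fin_iInf_iff (W : Ult B) {t : ℕ} (f : Fin t → B) : W.S (⨅ k, f k) ↔ ∀ k, W.S (f k) := by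
  constructor
  · intro h k
    exact W.mono' (iInf_le f k) h
  · intro h
    induction t with
    | zero =>
      have : (⨅ k, f k) = ⊤ := by simp
      rw [this]
      exact W.top'
    | succ t ih =>
      have h1 := ih (fun k => f k.castSucc) fun k => h _
      have h2 := W.inf' h1 (h (Fin.last t))
      refine W.mono' ?_ h2
      refine le_iInf fun k => ?_
      induction k using Fin.lastCases with
      | last => exact inf_le_right
      | cast k => exact inf_le_left.trans (iInf_le _ k)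

/-- the inner value of `trE` -/
def trI (e n t : ℕ) (a b : ℕ → B) (y : {y : Cs × Bool // U y.1 e n t y.2.toNat}) : B :=
  (⨅ k : Fin t, lit (b k) (y.1.1 k)) ⊓ lit (a n) y.1.2

theorem trE_eq (e : ℕ) (a b : ℕ → B) : trE e a b = ⨅ n, ⨆ t, ⨆ y, trI e n t a b y := rfl

theorem pre_congr {x x' : Cs} {n : ℕ} (h : ∀ k < n, x k = x' k) : pre x n = pre x' n := by
  rw [pre_eq_ofFn, pre_eq_ofFn]
  congr 1
  funext i
  exact h i.1 i.2

/-- `U x e k t v` depends only on the values of `x` below `t` -/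
theorem U_congrM {x x' : Cs} {e k t v : ℕ} (h : ∀ k < t, x k = x' k) (hU : U x e k t v) : U x' e k t v := by
  have h1 : ∀ s < t, res x e k s = res x' e k s := by
    intro s hs
    rw [res_eq, res_eq, pre_congr fun i hi => h i (lt_of_lt_of_le hi ((Nat.unpair_left_le s).trans hs.le))]
  obtain ⟨s, hs, h2, h3⟩ := hU
  refine ⟨s, hs, ?_, fun s' hs' => ?_⟩
  · rw [← h1 s hs]; exact h2
  · rw [← h1 s' (hs'.trans hs)]; exact h3 s' hs'

/-- `W` meets the suprema in `trB a b` -/
structure Meets (W : Ult B) (a b : ℕ → B) : Prop where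
  m1 : W.S (⨆ e, trE e a b) → ∃ e, W.S (trE e a b)
  m2 : ∀ e, W.S (⨆ n, (⨆ t, ⨆ y, trI e n t a b y)ᶜ) → ∃ n, W.S (⨆ t, ⨆ y, trI e n t a b y)ᶜ
  m3 : ∀ e n, W.S (⨆ t, ⨆ y, trI e n t a b y) → ∃ t, W.S (⨆ y, trI e n t a b y)
  m4 : ∀ e n t, W.S (⨆ y, trI e n t a b y) → ∃ y, W.S (trI e n t a b y)

theorem trI_iff (W : Ult B) (e n t : ℕ) (a b : ℕ → B) (y : {y : Cs × Bool // U y.1 e n t y.2.toNat}) :
    W.S (trI e n t a b y) ↔ (∀ k < t, rea W b k = y.1.1 k) ∧ rea W a n = y.1.2 := by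
  unfold trI
  rw [W.inf_iff, fin_iInf_iff, lit_iff]
  constructor
  · rintro ⟨h1, h2⟩
    exact ⟨fun k hk => (lit_iff W b k _).1 (h1 ⟨k, hk⟩), h2⟩
  · rintro ⟨h1, h2⟩
    exact ⟨fun k => (lit_iff W b k _).2 (h1 k.1 k.2), h2⟩

theorem trE_iff {W : Ult B} {a b : ℕ → B} (h : Meets W a b) (e : ℕ) :
    W.S (trE e a b) ↔ Idx (rea W b) e (rea W a) := by
  rw [trE_eq]
  constructor
  · intro h1 n
    obtain ⟨t, ht⟩ := h.m3 e n (W.mono' (iInf_le _ n) h1)
    obtain ⟨y, hy⟩ := h.m4 e n t ht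
    obtain ⟨h2, h3⟩ := (trI_iff W e n t a b y).1 hy
    refine ⟨t, ?_⟩
    rw [h3]
    exact U_congrM (fun k hk => (h2 k hk).symm) y.2
  · intro h1
    by_contra h2
    have h3 : W.S (⨅ n, ⨆ t, ⨆ y, trI e n t a b y)ᶜ := W.compl'.2 h2
    rw [compl_iInf] at h3
    obtain ⟨n, hn⟩ := h.m2 e h3
    obtain ⟨t, ht⟩ := h1 n
    have h4 : W.S (trI e n t a b ⟨(rea W b, rea W a n), ht⟩) :=
      (trI_iff W e n t a b _).2 ⟨fun _ _ => rfl, rfl⟩
    refine W.compl'.1 hn (W.mono' ?_ h4)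
    exact (le_iSup (fun y => trI e n t a b y) _).trans (le_iSup (fun t => ⨆ y, trI e n t a b y) t)

theorem trB_iff {W : Ult B} {a b : ℕ → B} (h : Meets W a b) :
    W.S (trB a b) ↔ TR (rea W a) (rea W b) := by
  rw [tr_iff_idx]
  unfold trB
  constructor
  · intro h1
    obtain ⟨e, he⟩ := h.m1 h1
    exact ⟨e, (trE_iff h e).1 he⟩
  · rintro ⟨e, he⟩
    exact W.mono' (le_iSup (fun e => trE e a b) e) ((trE_iff h e).2 he)

theorem setTR_iff {W : Ult B} {a b : ℕ → B} (h : Meets W a b) :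
    SetTR {n | W.S (a n)} {n | W.S (b n)} ↔ W.S (trB a b) := by
  classical
  rw [trB_iff h]
  have h1 : ∀ c : ℕ → B, (fun n => Part.some (if n ∈ {n | W.S (c n)} then 1 else 0) : ℕ →. ℕ) =
      orc (rea W c) := by
    intro c
    funext n
    show Part.some _ = Part.some (rea W c n).toNat
    congr 1
    unfold rea
    by_cases hc : W.S (c n) <;> simp [hc]
  have h2 : SetTR {n | W.S (a n)} {n | W.S (b n)} ↔
      TuringReducible (orc (rea W a)) (orc (rea W b)) := by
    rw [← h1 a, ← h1 b]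
    unfold SetTR
    convert Iff.rfl
  rw [h2]
  exact RecursiveIn.iff_nat

end Pool.Agent.SX
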