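import Pool.Agent.Lib.SX.M.Gen
import Pool.Agent.Lib.SX.M.Cls
import Pool.Agent.Lib.SX.M.Tur
import Pool.Agent.Lib.SX.M.Mixb
import Pool.Agent.Lib.SX.M.Nam
import Pool.Agent.Lib.BVM.ZFC3

/-!
# Nic: the ultrafilter and the countable set of names
-/

set_option autoImplicit false

namespace Pool.Agent.SX

open Pool.Agent.Lib.BVM Pool.Agent.Lib.BVM.BSet
open scoped symmDiff

variable {B : Type} [CompleteBooleanAlgebra B]

/-- the properties of the ultrafilter and of the countable set of names which are used -/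
structure Nice (W : Ult B) (N : Set (BSet B)) : Prop where
  wit : ∀ (φ : Fm) (v : ℕ → BSet B), (∀ i, v i ∈ N) →
    ∃ x ∈ N, bval φ (scons x v) = ⨆ y, bval φ (scons y v)
  nat : ∀ n : ℕ, chk B n ∈ N
  om : chkAll B ℕ ∈ N
  pn : Pn B ∈ N
  rl : Rn B ∈ N
  cn : Cn B ∈ N
  ln : ∀ x ∈ N, Ln (rv x) ∈ N
  sup1 : ∀ x ∈ N, W.S (⨆ n : ℕ, bEq x (chk B n)) → ∃ n : ℕ, W.S (bEq x (chk B n))
  sup2 : ∀ x ∈ N, ∀ y ∈ N, W.S (⨆ n, eqv (rv x) (rdk (rv y) (kd n))) →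
    ∃ n, W.S (eqv (rv x) (rdk (rv y) (kd n)))
  sup3 : ∀ x ∈ N, ∀ y ∈ N, W.S (⨆ n, (rv x n ⇔ rv y n)ᶜ) → ∃ n, W.S (rv x n ⇔ rv y n)ᶜ
  pair : ∀ f ∈ N, ∃ u v, rn u ∈ N ∧ rn v ∈ N ∧ embV (Fr f) u v = ⊥ ∧ Meets W (Fr f u) (Fr f v)

theorem exists_ult_gen' {b : B} (hb : b ≠ ⊥) {I : Type 1} [Countable I] [Nonempty I] {ι : I → Type}
    (s : (i : I) → ι i → B) : ∃ U : Ult B, U.S b ∧ ∀ i, U.S (⨆ n, s i n) → ∃ n, U.S (s i n) := by
  obtain ⟨g, hg⟩ := exists_surjective_nat I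
  obtain ⟨U, h1, h2⟩ := exists_ult_gen hb (ι := fun n => ι (g n)) (fun n => s (g n))
  refine ⟨U, h1, fun i => ?_⟩
  obtain ⟨n, rfl⟩ := hg i
  exact h2 n

theorem exists_nice [Nontrivial B] (hB : ∀ F : (ℕ → B) → ℕ → B, ExtF F → embB F = ⊥) :
    ∃ (W : Ult B) (N : Set (BSet B)), Nice W N := by
  have h1 : ∀ f : BSet B, ∃ u v, embV (Fr f) u v = ⊥ := fun f =>
    exists_embV_bot (Fr_ext f) (hB _ (Fr_ext f))
  choose uf vf huv using h1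
  let G : ℕ → BSet B → BSet B := fun i x => match i with
    | 0 => Ln (rv x)
    | 1 => rn (uf x)
    | _ => rn (vf x)
  have h0 : (Set.range (fun n : ℕ => chk B n) ∪ {chkAll B ℕ, Pn B, Rn B, Cn B}).Countable :=
    (Set.countable_range _).union (Set.Finite.countable (by simp))
  obtain ⟨N, hN, hN0, hG, hw⟩ := exists_cls h0 G
  have := hN.to_subtype
  let S3 : (ℕ → B) × (ℕ → B) → B := fun _ => ⊥
  let I : Type 1 := N ⊕ (N × N) ⊕ (N × N) ⊕ N ⊕ (N × ℕ) ⊕ (N × ℕ × ℕ) ⊕ (N × ℕ × ℕ × ℕ)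
  have hne : Nonempty I := ⟨Sum.inl ⟨chk B (0 : ℕ), hN0 (Or.inl ⟨0, rfl⟩)⟩⟩
  have hct : Countable I := inferInstance
  let ι : I → Type := fun i => match i with
    | .inl _ => ℕ
    | .inr (.inl _) => ℕ
    | .inr (.inr (.inl _)) => ℕ
    | .inr (.inr (.inr (.inl _))) => ℕ
    | .inr (.inr (.inr (.inr (.inl _)))) => ℕ
    | .inr (.inr (.inr (.inr (.inr (.inl _))))) => ℕ
    | .inr (.inr (.inr (.inr (.inr (.inr (_, e, n, t)))))) =>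
      {y : Cs × Bool // Pool.Agent.Mart.U y.1 e n t y.2.toNat}
  let s : (i : I) → ι i → B := fun i => match i with
    | .inl x => fun n : ℕ => bEq x.1 (chk B n)
    | .inr (.inl (x, y)) => fun n : ℕ => eqv (rv x.1) (rdk (rv y.1) (kd n))
    | .inr (.inr (.inl (x, y))) => fun n : ℕ => (rv x.1 n ⇔ rv y.1 n)ᶜ
    | .inr (.inr (.inr (.inl f))) => fun e : ℕ => trE e (Fr f.1 (uf f.1)) (Fr f.1 (vf f.1))
    | .inr (.inr (.inr (.inr (.inl (f, e))))) => fun n : ℕ =>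
      (⨆ t, ⨆ y, trI e n t (Fr f.1 (uf f.1)) (Fr f.1 (vf f.1)) y)ᶜ
    | .inr (.inr (.inr (.inr (.inr (.inl (f, e, n)))))) => fun t : ℕ =>
      ⨆ y, trI e n t (Fr f.1 (uf f.1)) (Fr f.1 (vf f.1)) y
    | .inr (.inr (.inr (.inr (.inr (.inr (f, e, n, t)))))) => fun y =>
      trI e n t (Fr f.1 (uf f.1)) (Fr f.1 (vf f.1)) y
  obtain ⟨W, -, hW⟩ := exists_ult_gen' (b := (⊤ : B)) top_ne_bot s
  refine ⟨W, N, hw, fun n => hN0 (Or.inl ⟨n, rfl⟩), hN0 (Or.inr (by simp)), hN0 (Or.inr (by simp)),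
    hN0 (Or.inr (by simp)), hN0 (Or.inr (by simp)), fun x hx => hG 0 x hx, ?_, ?_, ?_, ?_⟩
  · intro x hx
    exact hW (.inl ⟨x, hx⟩)
  · intro x hx y hy
    exact hW (.inr (.inl (⟨x, hx⟩, ⟨y, hy⟩)))
  · intro x hx y hy
    exact hW (.inr (.inr (.inl (⟨x, hx⟩, ⟨y, hy⟩))))
  · intro f hf
    refine ⟨uf f, vf f, hG 1 f hf, hG 2 f hf, huv f, ?_, ?_, ?_, ?_⟩
    · exact hW (.inr (.inr (.inr (.inl ⟨f, hf⟩))))
    · intro e
      exact hW (.inr (.inr (.inr (.inr (.inl (⟨f, hf⟩, e))))))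
    · intro e n
      exact hW (.inr (.inr (.inr (.inr (.inr (.inl (⟨f, hf⟩, e, n)))))))
    · intro e n t
      exact hW (.inr (.inr (.inr (.inr (.inr (.inr (⟨f, hf⟩, e, n, t)))))))

end Pool.Agent.SX
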