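import Pool.Agent.Lib.BVM.Model

/-!
# MGen: ultrafilters which meet countably many countable suprema (Rasiowa, Sikorski)
-/

set_option autoImplicit false
universe u v

namespace Pool.Agent.SX

open Pool.Agent.Lib.BVM

private theorem rs_step {B : Type u} [CompleteBooleanAlgebra B] {ι : Type v} (s : ι → B) (c : B) (hc : c ≠ ⊥) :
    ∃ c' ≤ c, c' ≠ ⊥ ∧ (c' ⊓ (⨆ n, s n) = ⊥ ∨ ∃ n, c' ≤ s n) := by
  by_cases h : c ⊓ (⨆ n, s n) = ⊥
  · exact ⟨c, le_rfl, hc, Or.inl h⟩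
  · rw [inf_iSup_eq] at h
    have h2 : ∃ n, c ⊓ s n ≠ ⊥ := by
      by_contra hn
      push Not at hn
      exact h (by simp [hn])
    obtain ⟨n, hn⟩ := h2
    exact ⟨c ⊓ s n, inf_le_left, hn, Or.inr ⟨n, inf_le_right⟩⟩

theorem exists_ult_gen {B : Type u} [CompleteBooleanAlgebra B] {b : B} (hb : b ≠ ⊥) {ι : ℕ → Type v}
    (s : (i : ℕ) → ι i → B) :
    ∃ U : Ult B, U.S b ∧ ∀ i, U.S (⨆ n, s i n) → ∃ n, U.S (s i n) := by
  have h1 : ∀ (i : ℕ) (c : {c : B // c ≠ ⊥}), ∃ c' : {c : B // c ≠ ⊥}, c'.1 ≤ c.1 ∧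
      (c'.1 ⊓ (⨆ n, s i n) = ⊥ ∨ ∃ n, c'.1 ≤ s i n) := fun i c => by
    obtain ⟨c', h1, h2, h3⟩ := rs_step (s i) c.1 c.2
    exact ⟨⟨c', h2⟩, h1, h3⟩
  choose g hg1 hg2 using h1
  let c : ℕ → {c : B // c ≠ ⊥} := fun n => Nat.rec ⟨b, hb⟩ (fun i c => g i c) n
  have hc0 : (c 0).1 = b := rfl
  have hcs : ∀ i, c (i + 1) = g i (c i) := fun i => rfl
  have hanti : Antitone fun i => (c i).1 := antitone_nat_of_succ_le fun i => by
    show (c (i + 1)).1 ≤ (c i).1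
    rw [hcs]
    exact hg1 i (c i)
  let F : Order.PFilter B := Order.IsPFilter.toPFilter (F := {a | ∃ i, (c i).1 ≤ a}) (by
    refine Order.IsPFilter.of_def ⟨⊤, 0, le_top⟩ ?_ ?_
    · rintro x ⟨i, hi⟩ y ⟨j, hj⟩
      refine ⟨(c (max i j)).1, ⟨max i j, le_rfl⟩, ?_, ?_⟩
      · exact (hanti (le_max_left i j)).trans hi
      · exact (hanti (le_max_right i j)).trans hj
    · rintro x y hxy ⟨i, hi⟩
      exact ⟨i, hi.trans hxy⟩)
  have hF : ∀ a, a ∈ F ↔ ∃ i, (c i).1 ≤ a := fun a => Iff.rfl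
  have hd : Disjoint (F : Set B) ((Order.Ideal.principal (⊥ : B) : Order.Ideal B) : Set B) := by
    rw [Set.disjoint_left]
    intro x hx hx'
    obtain ⟨i, hi⟩ := (hF x).1 hx
    have h2 : x ≤ ⊥ := Order.Ideal.mem_principal.1 hx'
    exact (c i).2 (le_bot_iff.1 (hi.trans h2))
  obtain ⟨J, hJ, -, hJ'⟩ := DistribLattice.prime_ideal_of_disjoint_filter_ideal hd
  have hcJ : ∀ i, (c i).1 ∉ J := fun i h => Set.disjoint_left.1 hJ' ((hF _).2 ⟨i, le_rfl⟩) h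
  have htop : (⊤ : B) ∉ J := fun h => hcJ 0 (J.lower le_top h)
  have hinf : ∀ {a c : B}, a ∉ J → c ∉ J → a ⊓ c ∉ J := by
    intro a c ha hc h
    rcases hJ.mem_or_mem h with h | h
    · exact ha h
    · exact hc h
  refine ⟨⟨fun a => a ∉ J, htop, ?_, hinf, ?_⟩, hcJ 0, ?_⟩
  · intro a c h ha hc; exact ha (J.lower h hc)
  · intro a
    constructor
    · intro h h'
      have : a ⊓ aᶜ ∈ J := by rw [inf_compl_eq_bot]; exact J.bot_mem
      rcases hJ.mem_or_mem this with h1 | h1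
      · exact h' h1
      · exact h h1
    · intro h h'
      rw [not_not] at h
      apply htop
      have := Order.Ideal.sup_mem h h'
      rwa [sup_compl_eq_top] at this
  · intro i hi
    rcases hg2 i (c i) with h | ⟨n, h⟩
    · exfalso
      have h3 := hinf (hcJ (i + 1)) hi
      rw [hcs] at h3
      apply h3
      rw [h]
      exact J.bot_mem
    · refine ⟨n, fun hn => hcJ (i + 1) ?_⟩
      rw [hcs]
      exact J.lower h hn

end Pool.Agent.SX
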